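import Pool.Agent.W932.RO.Stm

/-!
# The W-hierarchy relative to a random oracle: the measure step
-/

set_option autoImplicit false

namespace Pool.Agent.W125.RO

open Finset MeasureTheory Pool.Agent.NPC H568R2 Pool.Agent.H676
open Pool.Agent.H620R2.Gauge Pool.Agent.H591R3.PHG Pool.Agent.W911.AL
open Pool.Agent.W911.IB (LocalAt law_of_local Ew bt)
open Pool.Agent.W932.RO

theorem local_mono {n m : ℕ} (h : n ≤ m) {G : Set Oracle} (hG : LocalAt n G) : LocalAt m G :=
  fun A A' hA => hG A A' fun w hw => hA w (hw.trans h)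

theorem local_inter {n : ℕ} {G E : Set Oracle} (hG : LocalAt n G) (hE : LocalAt n E) :
    LocalAt n (G ∩ E) := fun A A' hA => by
  rw [Set.mem_inter_iff, Set.mem_inter_iff, hG A A' hA, hE A A' hA]

theorem ber_half : (ber (1 / 2) : Bool → ℝ) = unif := by
  funext b
  unfold ber unif
  cases b <;> norm_num

open Classical in
theorem fair_local {N n : ℕ} (hN : 2 ^ (n + 1) ≤ N) {G : Set Oracle} (hG : LocalAt n G) :
    fair G = ENNReal.ofReal (Ex unif (fun a : Fin N → Bool => if orc N a ∈ G then (1 : ℝ) else 0)) := by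
  unfold fair
  rw [law_of_local _ hN hG, Ew_fair]

theorem unif_nonneg' (a : Bool) : 0 ≤ unif a := by
  unfold unif
  norm_num

/-- RO-MEAS, first part -/
theorem main1 : StmMeas := by
  classical
  intro J _ _ pos hpos ℓ ℓ' hℓ G E hG hE δ hδ hex
  set L : ℕ := max (max ℓ ℓ') (Finset.univ.sup (fun j => (pos j).length)) with hL
  have hℓL : ℓ ≤ L := (le_max_left _ _).trans (le_max_left _ _)
  have hℓ'L : ℓ' ≤ L := (le_max_right _ _).trans (le_max_left _ _)
  have hposL : ∀ j, (pos j).length ≤ L := fun j =>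
    (Finset.le_sup (f := fun j => (pos j).length) (Finset.mem_univ j)).trans (le_max_right _ _)
  set N : ℕ := 2 ^ (L + 1) with hN
  have hlt : ∀ w : List Bool, w.length ≤ L → idx w < N := by
    intro w hw
    have h1 := idx_lt w
    have h2 : 2 ^ (w.length + 1) ≤ 2 ^ (L + 1) := Nat.pow_le_pow_right (by norm_num) (by omega)
    omega
  have hGL := local_mono hℓL hG
  have hEL := local_mono hℓ'L hE
  rw [fair_local (N := N) le_rfl (local_inter hGL hEL), fair_local (N := N) le_rfl hGL,
    ← ENNReal.ofReal_mul hδ]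
  apply ENNReal.ofReal_le_ofReal
  set e : J → Fin N := fun j => ⟨idx (pos j), hlt _ (hposL j)⟩ with he
  have hei : Function.Injective e := by
    intro j j' h
    have h1 : idx (pos j) = idx (pos j') := congrArg Fin.val h
    apply hpos
    rw [← str_idx (pos j), h1, str_idx]
  rw [Ex_overwrite e hei, ← Ex_smul, ber_half]
  apply Ex_mono unif_nonneg'
  intro a
  -- the two descriptions of the overwritten oracle
  have hagree : ∀ (z : J → Bool) (w : List Bool), w.length ≤ L →
      orc N (fun i => if h : ∃ j, e j = i then z h.choose else a i) w =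
        ovr pos (orc N a) z w := by
    intro z w hw
    have h1 := hlt w hw
    have h2 : orc N (fun i => if h : ∃ j, e j = i then z h.choose else a i) w =
        (if h : ∃ j, e j = (⟨idx w, h1⟩ : Fin N) then z h.choose else a ⟨idx w, h1⟩) := by
      unfold orc
      rw [dif_pos h1]
    have h3 : orc N a w = a ⟨idx w, h1⟩ := by
      unfold orc
      rw [dif_pos h1]
    rw [h2]
    unfold ovr
    have hiff : ∀ j, e j = (⟨idx w, h1⟩ : Fin N) ↔ pos j = w := by
      intro j
      constructor
      · intro h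
        have h4 : idx (pos j) = idx w := congrArg Fin.val h
        rw [← str_idx (pos j), h4, str_idx]
      · intro h
        apply Fin.ext
        show idx (pos j) = idx w
        rw [h]
    by_cases hj : ∃ j, pos j = w
    · have hj' : ∃ j, e j = (⟨idx w, h1⟩ : Fin N) := by
        obtain ⟨j, hj⟩ := hj
        exact ⟨j, (hiff j).2 hj⟩
      rw [dif_pos hj', dif_pos hj]
      congr 1
      apply hpos
      rw [(hiff _).1 hj'.choose_spec, hj.choose_spec]
    · have hj' : ¬ ∃ j, e j = (⟨idx w, h1⟩ : Fin N) := by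
        rintro ⟨j, h⟩
        exact hj ⟨j, (hiff j).1 h⟩
      rw [dif_neg hj', dif_neg hj, h3]
  have hG2 : ∀ z : J → Bool,
      (orc N (fun i => if h : ∃ j, e j = i then z h.choose else a i) ∈ G ↔ orc N a ∈ G) := by
    intro z
    apply hG
    intro w hw
    rw [hagree z w (hw.trans hℓL)]
    unfold ovr
    rw [dif_neg]
    rintro ⟨j, hj⟩
    have := hℓ j
    rw [hj] at this
    omega
  have hE2 : ∀ z : J → Bool,
      (orc N (fun i => if h : ∃ j, e j = i then z h.choose else a i) ∈ E ↔
        ovr pos (orc N a) z ∈ E) := by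
    intro z
    apply hE
    intro w hw
    exact hagree z w (hw.trans hℓ'L)
  by_cases hGa : orc N a ∈ G
  · rw [if_pos hGa, mul_one]
    refine le_trans (le_of_eq (congrArg (Ex unif) (funext fun z => ?_))) (hex (orc N a))
    have : (orc N (fun i => if h : ∃ j, e j = i then z h.choose else a i) ∈ G ∩ E) ↔
        ovr pos (orc N a) z ∈ E := by
      rw [Set.mem_inter_iff, hG2 z, hE2 z]
      exact ⟨fun h => h.2, fun h => ⟨hGa, h⟩⟩
    by_cases h : ovr pos (orc N a) z ∈ E
    · rw [if_pos h, if_pos (this.2 h)]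
    · rw [if_neg h, if_neg (fun h' => h (this.1 h'))]
  · rw [if_neg hGa, mul_zero]
    have h0 : Ex unif (fun _ : J → Bool => (0 : ℝ)) = 0 := by
      unfold Ex
      simp
    refine le_trans (le_of_eq (congrArg (Ex unif) (funext fun z => ?_))) (le_of_eq h0)
    rw [if_neg]
    rintro ⟨h, -⟩
    exact hGa ((hG2 z).1 h)

/-- RO-MEAS, second part -/
theorem main2 : StmNull := by
  intro C δ hδ hδ1 h
  have key : ∀ i : ℕ, ∃ (G : Set Oracle) (ℓ : ℕ), C ⊆ G ∧ LocalAt ℓ G ∧
      fair G ≤ ENNReal.ofReal δ ^ i := by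
    intro i
    induction i with
    | zero =>
      refine ⟨Set.univ, 0, Set.subset_univ _, fun _ _ _ => Iff.rfl, ?_⟩
      rw [pow_zero, measure_univ]
    | succ i ih =>
      obtain ⟨G, ℓ, hCG, hG, hf⟩ := ih
      obtain ⟨E, ℓ', hCE, hE, hEG⟩ := h ℓ
      refine ⟨G ∩ E, max ℓ ℓ', Set.subset_inter hCG hCE,
        local_inter (local_mono (le_max_left _ _) hG) (local_mono (le_max_right _ _) hE), ?_⟩
      calc fair (G ∩ E) ≤ ENNReal.ofReal δ * fair G := hEG G hG
        _ ≤ ENNReal.ofReal δ * ENNReal.ofReal δ ^ i := by gcongr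
        _ = ENNReal.ofReal δ ^ (i + 1) := by rw [pow_succ, mul_comm]
  have hle : ∀ i : ℕ, fair C ≤ ENNReal.ofReal δ ^ i := by
    intro i
    obtain ⟨G, ℓ, hCG, -, hf⟩ := key i
    exact (measure_mono hCG).trans hf
  have hlt : ENNReal.ofReal δ < 1 := by
    rw [← ENNReal.ofReal_one]
    exact (ENNReal.ofReal_lt_ofReal_iff one_pos).2 hδ1
  have ht := ENNReal.tendsto_pow_atTop_nhds_zero_of_lt_one hlt
  exact le_antisymm (ge_of_tendsto' ht hle) bot_le

end Pool.Agent.W125.RO
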